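import Pool.Agent.Helper11_COV.Stmt

set_option autoImplicit false

namespace Pool.Agent.COV.H49

theorem exp_le (x y : ℝ) (hx0 : 0 ≤ x) (hx1 : x ≤ 1)
    (h : ∑ m ∈ Finset.range 7, x ^ m / (m.factorial : ℝ) +
      x ^ 7 * (7 + 1) / (((7 : ℕ).factorial : ℝ) * 7) ≤ y) : Real.exp x ≤ y :=
  le_trans (Real.exp_bound' (n := 7) hx0 hx1 (by norm_num)) (by exact_mod_cast h)

/-- EXP -/
theorem exp : ExpStmt := by
  refine ⟨⟨?_, ?_⟩, ⟨?_, ?_⟩, ⟨?_, ?_⟩, ⟨?_, ?_⟩⟩
  · apply exp_le
    · norm_num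
    · norm_num
    · norm_num [Finset.sum_range_succ, Nat.factorial]
  · norm_num
  · apply exp_le
    · norm_num
    · norm_num
    · norm_num [Finset.sum_range_succ, Nat.factorial]
  · norm_num
  · apply exp_le
    · norm_num
    · norm_num
    · norm_num [Finset.sum_range_succ, Nat.factorial]
  · norm_num
  · apply exp_le
    · norm_num
    · norm_num
    · norm_num [Finset.sum_range_succ, Nat.factorial]
  · norm_num

end Pool.Agent.COV.H49
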