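import Pool.Agent.Helper11_COV.Stmt

set_option autoImplicit false

namespace Pool.Agent.COV.H49

/-- trial division by the numbers in `[2, 32)` -/
def isP (p : ℕ) : Bool :=
  (List.range 32).all fun d => Nat.ble d 1 || Nat.ble p d || !(Nat.beq (p % d) 0)

/-- `p` is not in `L` and has a small proper divisor, or it is in `L` -/
def cmp (L : List ℕ) (p : ℕ) : Bool :=
  Nat.ble p 4 || (L.any fun q => Nat.beq q p) ||
    ([2, 3, 5, 7, 11, 13, 17, 19, 23, 29, 31].any fun d => Nat.blt d p && Nat.beq (p % d) 0)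

theorem isP_prime (p : ℕ) (h2 : 2 ≤ p) (hp : p < 1024) (h : isP p = true) : p.Prime := by
  rw [Nat.prime_def_le_sqrt]
  refine ⟨h2, fun m hm hms hd => ?_⟩
  have hm32 : m < 32 := by
    have : m * m ≤ p := Nat.le_sqrt.mp hms
    nlinarith
  have hlt : m < p := by
    have : m * m ≤ p := Nat.le_sqrt.mp hms
    nlinarith
  have h' := List.all_eq_true.mp h m (List.mem_range.mpr hm32)
  simp only [Bool.or_eq_true, Nat.ble_eq, Bool.not_eq_true', ] at h'
  rcases h' with (h' | h') | h'
  · omega
  · omega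
  · have h3 : p % m = 0 := Nat.mod_eq_zero_of_dvd hd
    rw [h3] at h'
    exact absurd h' (by decide)

theorem cmp_mem (L : List ℕ) (q : ℕ) (hq : q.Prime) (h5 : 5 ≤ q) (h : cmp L q = true) : q ∈ L := by
  unfold cmp at h
  simp only [Bool.or_eq_true, Nat.ble_eq, List.any_eq_true, Bool.and_eq_true] at h
  rcases h with (h | ⟨x, hx, hxq⟩) | ⟨d, hd, hdq, hdm⟩
  · omega
  · have : x = q := Nat.eq_of_beq_eq_true hxq
    exact this ▸ hx
  · exfalso
    have h1 : q % d = 0 := Nat.eq_of_beq_eq_true hdm
    have h2 : d ∣ q := Nat.dvd_of_mod_eq_zero h1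
    have h3 : d < q := by
      have := hdq
      simpa [Nat.blt_eq] using this
    have h4 : 2 ≤ d := by
      simp only [List.mem_cons, List.not_mem_nil, or_false] at hd
      rcases hd with h | h | h | h | h | h | h | h | h | h | h <;> omega
    rcases (Nat.dvd_prime hq).mp h2 with h5 | h5 <;> omega

theorem prOk_of (L : List ℕ) (PR lo B : ℕ) (h1 : L.prod = PR)
    (h2 : ∀ p ∈ L, p.Prime ∧ p < lo) (h3 : ∀ q, q.Prime → 5 ≤ q → q < B → q ∈ L) (h4 : 2 ≤ lo) :
    PrOk PR lo (B * B) := by
  intro n hn1 hn2 hn6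
  constructor
  · intro hg
    by_contra hnp
    have hne : n ≠ 1 := by omega
    have hq : (Nat.minFac n).Prime := Nat.minFac_prime hne
    have hd : Nat.minFac n ∣ n := Nat.minFac_dvd n
    have hsq : Nat.minFac n ^ 2 ≤ n := Nat.minFac_sq_le_self (by omega) hnp
    have hlt : Nat.minFac n < B := by
      by_contra hc
      push Not at hc
      nlinarith
    have h5 : 5 ≤ Nat.minFac n := by
      by_contra hc
      push Not at hc
      have h2' := hq.two_le
      generalize Nat.minFac n = q at *
      interval_cases q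
      · omega
      · omega
      · exact absurd hq (by decide)
    have hmem := h3 _ hq h5 hlt
    have hdv : Nat.minFac n ∣ PR := h1 ▸ List.dvd_prod hmem
    have : Nat.minFac n ∣ Nat.gcd n PR := Nat.dvd_gcd hd hdv
    rw [hg] at this
    have := Nat.dvd_one.mp this
    omega
  · intro hp
    rw [← Nat.coprime_iff_gcd_eq_one, ← h1]
    rw [Nat.Prime.coprime_iff_not_dvd hp]
    intro hdv
    obtain ⟨a, ha, hda⟩ := (Prime.dvd_prod_iff hp.prime).mp hdv
    have := h2 a ha
    have hle := Nat.le_of_dvd this.1.pos hda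
    omega

theorem chk (L : List ℕ) (B : ℕ) (h : (List.range B).all (cmp L) = true) :
    ∀ q, q.Prime → 5 ≤ q → q < B → q ∈ L := by
  intro q hq h5 hB
  exact cmp_mem L q hq h5 (List.all_eq_true.mp h q (List.mem_range.mpr hB))

theorem chk2 (L : List ℕ) (lo : ℕ) (hlo : lo ≤ 1024)
    (h : L.all (fun p => Nat.ble 2 p && Nat.blt p lo && isP p) = true) :
    ∀ p ∈ L, p.Prime ∧ p < lo := by
  intro p hp
  have := List.all_eq_true.mp h p hp
  simp only [Bool.and_eq_true, Nat.ble_eq, Nat.blt_eq] at this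
  exact ⟨isP_prime p this.1.1 (by omega) this.2, this.1.2⟩

/-- SIV -/
theorem siv : SivStmt := by
  refine ⟨?_, ?_, ?_⟩
  · exact prOk_of PRaL PRa 61 61 (by decide +kernel) (chk2 _ _ (by norm_num) (by decide +kernel))
      (chk _ _ (by decide +kernel)) (by norm_num)
  · exact prOk_of PRbL PRb 511 521 (by decide +kernel) (chk2 _ _ (by norm_num) (by decide +kernel))
      (chk _ _ (by decide +kernel)) (by norm_num)
  · exact prOk_of PRcL PRc 1023 1031 (by decide +kernel) (chk2 _ _ (by norm_num) (by decide +kernel))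
      (chk _ _ (by decide +kernel)) (by norm_num)

end Pool.Agent.COV.H49
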