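import Pool.Agent.COV.StmtsD

/-!
# Squad COV, row GB9 (helper49; follows helper34's row GBX): points of a box, coefficients in a
number field
-/

set_option autoImplicit false

namespace Pool.Agent.COV.H49

open Polynomial NumberField Pool.Agent.COV

theorem td_aeval9 {K₀ : Type} [Field K₀] {m : ℕ} (k : ℕ)
    (F : Fin 7 → MvPolynomial (Fin (m + 1)) (𝓞 K₀))
    (hF : ∀ i, (F i).totalDegree ≤ k) (R : MvPolynomial (Fin 7) ℤ) :
    (MvPolynomial.aeval F R).totalDegree ≤ R.totalDegree * k := by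
  rw [MvPolynomial.aeval_def, MvPolynomial.eval₂_eq]
  apply MvPolynomial.totalDegree_finsetSum_le
  intro d hd
  have h1 : d.sum (fun _ e => e) ≤ R.totalDegree := MvPolynomial.le_totalDegree hd
  have h2 : (algebraMap ℤ (MvPolynomial (Fin (m + 1)) (𝓞 K₀)) (R.coeff d)).totalDegree = 0 := by
    rw [MvPolynomial.algebraMap_apply, MvPolynomial.totalDegree_C]
  have h3 : (∏ i ∈ d.support, F i ^ d i).totalDegree ≤ ∑ i ∈ d.support, d i * k := by
    refine (MvPolynomial.totalDegree_finsetProd _ _).trans (Finset.sum_le_sum fun i _ => ?_)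
    exact (MvPolynomial.totalDegree_pow _ _).trans (Nat.mul_le_mul le_rfl (hF i))
  have h4 := MvPolynomial.totalDegree_mul
    (algebraMap ℤ (MvPolynomial (Fin (m + 1)) (𝓞 K₀)) (R.coeff d)) (∏ i ∈ d.support, F i ^ d i)
  have h5 : ∑ i ∈ d.support, d i * k = (d.sum (fun _ e => e)) * k := by
    rw [Finsupp.sum, Finset.sum_mul]
  have h6 : (d.sum (fun _ e => e)) * k ≤ R.totalDegree * k := Nat.mul_le_mul h1 le_rfl
  rw [h5] at h3
  rw [h2, Nat.zero_add] at h4
  exact h4.trans (h3.trans h6)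

theorem eval_cast9 {S : Type} [CommRing S] (φ : S →+* ℂ) {m : ℕ} (t : Fin (m + 1) → ℤ)
    (P : MvPolynomial (Fin (m + 1)) S) :
    MvPolynomial.eval (fun j => ((t j : ℤ) : ℂ)) (MvPolynomial.map φ P) =
      φ (MvPolynomial.eval (fun l => ((t l : ℤ) : S)) P) := by
  induction P using MvPolynomial.induction_on with
  | C a => simp
  | add p q hp hq =>
    rw [map_add, map_add, map_add, hp, hq, map_add]
  | mul_X p i hp =>
    rw [map_mul, map_mul, map_mul, hp, map_mul]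
    simp

theorem eval_aeval9 {S : Type} [CommRing S] (φ : S →+* ℂ) {m : ℕ}
    (F : Fin 7 → MvPolynomial (Fin (m + 1)) S) (t : Fin (m + 1) → ℤ)
    (R : MvPolynomial (Fin 7) ℤ) :
    φ (MvPolynomial.eval (fun l => ((t l : ℤ) : S)) (MvPolynomial.aeval F R)) =
      MvPolynomial.aeval (fun i => φ (MvPolynomial.eval (fun l => ((t l : ℤ) : S)) (F i))) R := by
  induction R using MvPolynomial.induction_on with
  | C a => simp
  | add p q hp hq =>
    rw [map_add, map_add, map_add, map_add, hp, hq]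
  | mul_X p i hp =>
    rw [map_mul, map_mul, map_mul, map_mul, hp]
    simp

theorem gb9 (h1 : GelStmt) (h2 : TTC.SzbStmt) : Gb9Stmt := by
  classical
  intro K₀ _ _ n k m
  obtain ⟨R, hR, hRz⟩ := h1 n
  refine ⟨R.totalDegree * k * 3 ^ (m + 1), ?_⟩
  intro F T i₀ ψ hT hF hA
  obtain ⟨φ, hφ⟩ : ∃ φ : 𝓞 K₀ →+* ℂ, φ = ψ.comp (algebraMap (𝓞 K₀) K₀) := ⟨_, rfl⟩
  have hφa : ∀ x : 𝓞 K₀, φ x = ψ (x : K₀) := fun x => by rw [hφ]; rfl
  have hφi : Function.Injective φ := by
    intro x y h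
    rw [hφa, hφa] at h
    exact RingOfIntegers.coe_injective (ψ.injective h)
  obtain ⟨R', hR'⟩ : ∃ R', R' = MvPolynomial.aeval F R := ⟨_, rfl⟩
  have hR'0 : R' ≠ 0 := by
    intro h
    apply hR
    apply algebraicIndependent_iff.1 hA
    rw [← hR', h]
  have hmap : MvPolynomial.map φ R' ≠ 0 := by
    intro h
    apply hR'0
    apply MvPolynomial.map_injective φ hφi
    rw [h, map_zero]
  have hdeg : (MvPolynomial.map φ R').totalDegree ≤ R.totalDegree * k := by
    refine le_trans ?_ (hR' ▸ td_aeval9 k F hF R)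
    exact Finset.sup_mono (MvPolynomial.support_map_subset _ _)
  have hz := h2 (m + 1) (MvPolynomial.map φ R') T (T i₀) hmap (hT i₀).1
    (fun j => by have := (hT j).2; omega)
  have hfin : {b : Fin (m + 1) → ℤ | (∀ j, |b j| ≤ (T j : ℤ)) ∧
      MvPolynomial.eval (fun j => ((b j : ℤ) : ℂ)) (MvPolynomial.map φ R') = 0}.Finite := by
    apply Set.Finite.subset (Fintype.piFinset fun j => Finset.Icc (-(T j : ℤ)) (T j)).finite_toSet
    intro b hb
    rw [Finset.mem_coe, Fintype.mem_piFinset]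
    intro j
    rw [Finset.mem_Icc, ← abs_le]
    exact hb.1 j
  have hsub : {t : Fin (m + 1) → ℤ | (∀ i, |t i| ≤ (T i : ℤ)) ∧ Cov n (TTC.sext fun i =>
      ψ ((MvPolynomial.eval (fun l => ((t l : ℤ) : 𝓞 K₀)) (F i) : 𝓞 K₀) : K₀))} ⊆
      {b : Fin (m + 1) → ℤ | (∀ j, |b j| ≤ (T j : ℤ)) ∧
      MvPolynomial.eval (fun j => ((b j : ℤ) : ℂ)) (MvPolynomial.map φ R') = 0} := by
    intro t ht
    refine ⟨ht.1, ?_⟩
    rw [eval_cast9, hR', eval_aeval9]
    have h3 := hRz _ ht.2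
    have e : (fun i => φ (MvPolynomial.eval (fun l => ((t l : ℤ) : 𝓞 K₀)) (F i))) =
      (fun i => ψ ((MvPolynomial.eval (fun l => ((t l : ℤ) : 𝓞 K₀)) (F i) : 𝓞 K₀) : K₀)) :=
      funext fun i => hφa _
    rw [e]
    exact h3
  have hcard := Set.ncard_le_ncard hsub hfin
  have hprod : ∏ j, (2 * T j + 1) ≤ 3 ^ (m + 1) * ∏ j, T j := by
    have e1 : (3 : ℕ) ^ (m + 1) * ∏ j, T j = ∏ j, (3 * T j) := by
      rw [Finset.prod_mul_distrib, Finset.prod_const, Finset.card_univ, Fintype.card_fin]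
    rw [e1]
    apply Finset.prod_le_prod'
    intro j _
    have := (hT j).1
    omega
  calc _ ≤ _ * T i₀ := Nat.mul_le_mul hcard le_rfl
    _ = T i₀ * _ := Nat.mul_comm _ _
    _ ≤ _ := hz
    _ ≤ (R.totalDegree * k) * (3 ^ (m + 1) * ∏ j, T j) := Nat.mul_le_mul hdeg hprod
    _ = R.totalDegree * k * 3 ^ (m + 1) * ∏ i, T i := by rw [← Nat.mul_assoc]

end Pool.Agent.COV.H49
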